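import Pool.Agent.H.MP_c00610_co.L

open Filter Topology

namespace Pool.Agent.Results.MP_c00610_co.Asym

/-- Boolean matrix product, max over k of min (A i k) (B k j), with false < true -/
noncomputable def bmul {n : ℕ} (A B : Fin n → Fin n → Bool) : Fin n → Fin n → Bool :=
  fun i j => Finset.univ.sup (fun k => min (A i k) (B k j))

/-- number of idempotent n by n Boolean matrices -/
noncomputable def idem (n : ℕ) : ℕ :=
  Set.ncard {A : Fin n → Fin n → Bool | bmul A A = A}

noncomputable def f (n : ℕ) : ℝ :=
  ∑ b ∈ Finset.range (n + 1),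
    (n.choose b : ℝ) * 2 ^ ((b + 1) * (n - b)) * (2 ^ b + 2 ^ (n - b))

open Pool.Agent.H.MP_c00610_co

lemma bmul_true {n : ℕ} (A B : Fin n → Fin n → Bool) (i j : Fin n) :
    bmul A B i j = true ↔ ∃ k, A i k = true ∧ B k j = true := by
  have h : ∀ b : Bool, b = true ↔ false < b := by decide
  have h2 : ∀ a b : Bool, false < min a b ↔ a = true ∧ b = true := by decide
  rw [h, bmul]
  refine (Finset.lt_sup_iff (α := Bool)).trans ?_
  simp only [Finset.mem_univ, true_and]
  exact exists_congr (fun k => h2 _ _)

theorem result : Tendsto (fun n => (idem n : ℝ) / f n) atTop (𝓝 1) := by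
  refine main.congr (fun n => ?_)
  congr 1
  · unfold idem II Pool.Agent.H.MP_e84969_co.cnt
    congr 2
    ext A
    constructor
    · intro h; funext i j; exact Bool.eq_iff_iff.2 ((bmul_true A A i j).trans (h i j).symm)
    · intro h i j; rw [← bmul_true, h]
  · exact Finset.sum_congr rfl (fun k _ => by rw [tt, mul_assoc])

end Pool.Agent.Results.MP_c00610_co.Asym
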